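import Pool.Agent.Results.MP_f5469c_gt.PlasticSmallSubgroup
import Pool.Agent.U775.LG.LuzinN

/-!
# It is consistent that a dense subgroup of the line of size less than the continuum is plastic

* Some forcing notion (the product of the collapse of `2 ^ ℵ₀` to `ω₁` with a product of Silver
  forcings with countable supports, over an arbitrary model of ZFC) forces the principle
  `SmallCof`: a family of slaloms indexed by a linear order with countable initial segments captures
  all functions from `ℕ` to `ℕ`, and there are more than `ℵ₁` sets of natural numbers.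
* `SmallCof` implies that in each dimension `ℵ₁` null sets are cofinal among the null sets, and
  `ℵ₁ < 𝔠`; so there is a plastic dense subgroup of `ℝ` of size `ℵ₁ < 𝔠` (starting result
  `PlasticSmallSubgroup`, where these are hypotheses).

A sentence of the forcing language is represented by the set of the conditions which force it
(`Pool.Agent.U775.LG.Defs`).
-/

set_option autoImplicit false

namespace Pool.Agent.Results.MP_f5469c_gt.PlasticForced

open Set Cardinal MeasureTheory
open Pool.Agent.Helper126.Sus.Forc Pool.Agent.U775.LG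
open Pool.Agent.R594.Star (exists_gt_K1 mk_K1 countable_Iio_K1)
open Pool.Agent.Results.MP_f5469c_gt.PlasticSmallSubgroup (Plastic CofNullLe)

/-- The conditions on the objects of the ground model. -/
structure Ground {Ω K W : Type} [LinearOrder Ω] (r : K → Ω) (C : W → ℕ → Finset ℕ) : Prop where
  nonempty : Nonempty Ω
  countable_Iio : ∀ ξ : Ω, (Iio ξ).Countable
  exists_gt : ∀ ξ : Ω, ∃ η, ξ < η
  infinite : ∀ ξ, {a | r a = ξ}.Infinite
  card_le : ∀ w n, (C w n).card ≤ 2 ^ n

/-- The combinatorial principle. -/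
structure SmallCof {Ω K W : Type} [LinearOrder Ω] (r : K → Ω) (C : W → ℕ → Finset ℕ) : Prop where
  /-- Every function from `ℕ` to `ℕ` is captured by one of the slaloms `C (g ξ)`, `ξ` in `Ω`. -/
  loc : ∃ g : Ω → W, ∀ f : ℕ → ℕ, ∃ ξ, ∀ n, f n ∈ C (g ξ) n
  /-- There are at least as many sets of natural numbers as elements of `K`. -/
  dist : ∃ s : K → ℕ → Prop, ∀ a b, a ≠ b → ∃ i, ¬ (s a i ↔ s b i)
  /-- No function maps a level of `K` onto a higher level. -/
  size : ∀ ξ η, ξ < η → ∀ F : K → K, ∃ b, r b = η ∧ ∀ a, r a = ξ → F a ≠ b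

/-- The principle in the forcing language. -/
def ForcedSmallCof (P : Type) [Preorder P] {Ω K W : Type} [LinearOrder Ω] (r : K → Ω)
    (C : W → ℕ → Finset ℕ) : Set P :=
  fand (LocN Ω C) (fand (DistN K) (SizeN r))

theorem lt_and_cof {Ω K W : Type} [LinearOrder Ω] {r : K → Ω} {C : W → ℕ → Finset ℕ}
    (hg : Ground r C) (hp : SmallCof r C) : (ℵ₁ : Cardinal.{0}) < 𝔠 ∧ CofNullLe := by
  obtain ⟨ξ0⟩ := hg.nonempty
  obtain ⟨ξ1, h1⟩ := hg.exists_gt ξ0
  have hlt : ∀ ξ η, ξ < η → #{a | r a = ξ} < #{a | r a = η} :=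
    fun ξ η h => level_lt hg.infinite hp.size h
  constructor
  · rw [← succ_aleph0]
    refine (Order.succ_le_of_lt (lt_of_le_of_lt ?_ (hlt _ _ h1))).trans_lt
      ((level_lt_mk hg.exists_gt hlt ξ1).trans_le (mk_le_continuum' hp.dist))
    have := (hg.infinite ξ0).to_subtype
    exact aleph0_le_mk _
  · intro n
    obtain ⟨U, hU⟩ := exists_basis (Fin n → ℝ)
    obtain ⟨g, hg'⟩ := hp.loc
    refine ⟨range fun ξ => nullR U volume (C (g ξ)), mk_range_le.trans
      (mk_le_aleph_one hg.countable_Iio), ?_, fun N hN => ?_⟩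
    · rintro _ ⟨ξ, rfl⟩
      exact nullR_null U volume (hg.card_le _)
    · obtain ⟨f, hf⟩ := exists_codeR U volume hU hN
      obtain ⟨ξ, h3⟩ := hg' f
      exact ⟨_, ⟨ξ, rfl⟩, hf _ h3⟩

/-- (1) Some forcing notion forces the principle. (2) The principle implies that `ℵ₁ < 𝔠`, that in
each dimension `ℵ₁` null sets are cofinal, and that some dense subgroup of `ℝ` of size `ℵ₁ < 𝔠` is
plastic; even all non-expansive injections of it are isometries. -/
theorem result :
    (∃ (P : Type) (_ : Preorder P) (Ω K W : Type) (_ : LinearOrder Ω) (r : K → Ω)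
      (C : W → ℕ → Finset ℕ), Nonempty P ∧ Ground r C ∧ ∀ p : P, p ∈ ForcedSmallCof P r C) ∧
    ∀ (Ω K W : Type) (_ : LinearOrder Ω) (r : K → Ω) (C : W → ℕ → Finset ℕ),
      Ground r C → SmallCof r C → (ℵ₁ : Cardinal.{0}) < 𝔠 ∧ CofNullLe ∧
        ∃ G : AddSubgroup ℝ, Dense (G : Set ℝ) ∧ #G = ℵ₁ ∧ #G < 𝔠 ∧ Plastic G ∧
          ∀ f : G → G, Function.Injective f → (∀ x y, dist (f x) (f y) ≤ dist x y) →
            Isometry f := by
  refine ⟨?_, ?_⟩
  · obtain ⟨P, hP, h1, h2⟩ := exists_forcing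
    refine ⟨P, hP, _, _, _, inferInstance, _, _, h1, ⟨?_, countable_Iio_K1, fun ξ => ?_,
      fun ξ => ?_, fun w => w.2⟩, fun p => ⟨(h2 p).1, (h2 p).2.1, (h2 p).2.2.1⟩⟩
    · exact ⟨(exists_gt_K1 (C := ∅) countable_empty).choose⟩
    · obtain ⟨η, h3⟩ := exists_gt_K1 (C := {ξ}) (countable_singleton ξ)
      exact ⟨η, h3 ξ rfl⟩
    · rw [← infinite_coe_iff, ← aleph0_le_mk_iff, mk_level]
      exact (aleph0_le_continuum.trans (cantor 𝔠).le).trans (two_power_continuum_lt _).le
  · intro Ω K W _ r C hg hp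
    obtain ⟨h1, h2⟩ := lt_and_cof hg hp
    exact ⟨h1, h2, PlasticSmallSubgroup.result.1 h1 h2⟩

end Pool.Agent.Results.MP_f5469c_gt.PlasticForced
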